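import Pool.Agent.helper91.MC.Final

/-!
# The ratio of the minimal curvatures in consecutive codimensions is unbounded
-/

open scoped Manifold ContDiff ENNReal NNReal

namespace Pool.Agent.Results.MP_56b5c1_gt.UnboundedRatio

open Pool.Agent.helper8.MC

/-- For every `C` there are a closed connected smooth manifold `X` and `M` such that `X` immerses in the
Euclidean space of dimension `M` and `rho(X, M) > C`. -/
theorem result (C : ℝ≥0) :
    ∃ (m : ℕ) (X : Type) (_ : TopologicalSpace X) (_ : ChartedSpace (Eu m) X) (M : ℕ),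
      0 < m ∧ IsManifold (𝓡 m) ∞ X ∧ CompactSpace X ∧ T2Space X ∧ SecondCountableTopology X ∧
      ConnectedSpace X ∧ (∃ f : X → Eu M, IsImm m f) ∧ minCurv m X M < ⊤ ∧
      1 ≤ minCurv m X (M + 1) ∧ minCurv m X (M + 1) < ⊤ ∧ (C : ℝ≥0∞) < rho m X M := by
  obtain ⟨c, D⟩ := Glue.data_exists
  exact Glue.final c D C

end Pool.Agent.Results.MP_56b5c1_gt.UnboundedRatio
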